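import Pool.Agent.H20.SM.TP
import Pool.Agent.H76.HK.EP

/-!
Row CFF: the coefficients of the Dedekind zeta function twisted by a Dirichlet character.
-/

set_option autoImplicit false

open Filter Topology NumberField nonZeroDivisors

namespace Pool.Agent.H8.SM

open Pool.Agent.H20.SM Pool.Agent.H25.HK Pool.Agent.H76.HK
open Pool.Agent.H30.BV (cv DS)
open ArithmeticFunction LSeries

/-! ### the function `gF` -/

section gF

variable (K : Type) [Field K] [NumberField K]

/-- the sum of the logarithms of the norms -/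
noncomputable def sF (n : ℕ) : ℝ :=
  ∑ᶠ P ∈ {P : Ideal (𝓞 K) | P.IsPrime ∧ P ≠ ⊥ ∧ ∃ j : ℕ, 1 ≤ j ∧ Ideal.absNorm P ^ j = n},
    Real.log (Ideal.absNorm P)

lemma sF_pow (p k : ℕ) (hp : p.Prime) (hk : 1 ≤ k) :
    sF K (p ^ k) = (spf K p k : ℝ) * Real.log p := by
  classical
  obtain ⟨S, hS1, hS2, hS3, hS4⟩ := primes_fin K p hp
  unfold sF
  rw [show {P : Ideal (𝓞 K) | P.IsPrime ∧ P ≠ ⊥ ∧ ∃ j : ℕ, 1 ≤ j ∧ Ideal.absNorm P ^ j = p ^ k} =
    ((S.filter fun P => P.inertiaDeg ℤ ∣ k : Finset (Ideal (𝓞 K))) : Set (Ideal (𝓞 K))) from ?_]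
  · rw [finsum_mem_coe_finset, ← hS4 k, Finset.sum_filter]
    push_cast
    rw [Finset.sum_mul]
    refine Finset.sum_congr rfl fun P hP => ?_
    split_ifs with h
    · rw [← (hS2 P hP).2]
      push_cast
      rw [Real.log_pow]
    · simp
  · ext P
    simp only [Set.mem_ofPred_eq, Finset.coe_filter]
    constructor
    · rintro ⟨h1, h2, j, hj, h3⟩
      have hP : P ∈ S := by
        rw [hS1]
        refine ⟨h1, h2, ?_⟩
        have h4 : ((Ideal.absNorm P : ℕ) : 𝓞 K) ∈ P := Ideal.absNorm_mem P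
        have h5 : (((Ideal.absNorm P ^ j : ℕ)) : 𝓞 K) ∈ P := by
          push_cast
          exact P.pow_mem_of_mem h4 j hj
        rw [h3] at h5
        push_cast at h5
        exact h1.mem_of_pow_mem k h5
      refine ⟨hP, ?_⟩
      rw [← (hS2 P hP).2, ← pow_mul] at h3
      exact ⟨j, (Nat.pow_right_injective hp.two_le h3).symm⟩
    · rintro ⟨hP, j, hj⟩
      have h1 := (hS1 P).1 hP
      refine ⟨h1.1, h1.2.1, j, ?_, ?_⟩
      · rcases Nat.eq_zero_or_pos j with h | h
        · subst h
          omega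
        · exact h
      · rw [← (hS2 P hP).2, ← pow_mul, ← hj]

lemma gF_pow (p k : ℕ) (hp : p.Prime) (hk : 1 ≤ k) : gF K (p ^ k) = (spf K p k : ℝ) := by
  change sF K (p ^ k) / ArithmeticFunction.vonMangoldt (p ^ k) = _
  rw [sF_pow K p k hp hk, ArithmeticFunction.vonMangoldt_apply_pow (by omega),
    ArithmeticFunction.vonMangoldt_apply_prime hp]
  have : Real.log p ≠ 0 := (Real.log_pos (by exact_mod_cast hp.one_lt)).ne'
  field_simp

lemma spf_le (p k : ℕ) (hp : p.Prime) : spf K p k ≤ Module.finrank ℚ K := by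
  obtain ⟨S, hS1, hS2, hS3, hS4⟩ := primes_fin K p hp
  rw [← hS4 k]
  refine le_trans (Finset.sum_le_sum fun P _ => ?_) hS3
  split_ifs
  · exact le_rfl
  · exact Nat.zero_le _

lemma gF_bd (n : ℕ) : 0 ≤ gF K n ∧ gF K n ≤ Module.finrank ℚ K := by
  by_cases h : IsPrimePow n
  · obtain ⟨p, k, hp, hk, rfl⟩ := (isPrimePow_nat_iff n).1 h
    rw [gF_pow K p k hp hk]
    exact ⟨Nat.cast_nonneg _, by exact_mod_cast spf_le K p k hp⟩
  · have h0 : gF K n = 0 := by
      unfold gF
      rw [ArithmeticFunction.vonMangoldt_eq_zero_iff.2 h, div_zero]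
    rw [h0]
    exact ⟨le_rfl, Nat.cast_nonneg _⟩

lemma aF_cnt (n : ℕ) : aF K n = (cnt K n : ℝ) := rfl

end gF

/-! ### completely multiplicative functions -/

/-- twist of an arithmetic function -/
noncomputable def tw (h : ℕ → ℂ) (f : ArithmeticFunction ℂ) : ArithmeticFunction ℂ :=
  ⟨fun n => h n * f n, by simp⟩

lemma tw_apply (h : ℕ → ℂ) (f : ArithmeticFunction ℂ) (n : ℕ) : tw h f n = h n * f n := rfl

lemma tw_mul (h : ℕ → ℂ) (hm : ∀ a b, h (a * b) = h a * h b) (f g : ArithmeticFunction ℂ) :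
    tw h (f * g) = tw h f * tw h g := by
  ext n
  rw [tw_apply, ArithmeticFunction.mul_apply, ArithmeticFunction.mul_apply, Finset.mul_sum]
  refine Finset.sum_congr rfl fun x hx => ?_
  rw [tw_apply, tw_apply, ← (Nat.mem_divisorsAntidiagonal.1 hx).1, hm]
  ring

lemma tw_one (h : ℕ → ℂ) (h1 : h 1 = 1) : tw h 1 = 1 := by
  ext n
  rw [tw_apply]
  rcases eq_or_ne n 1 with rfl | hn
  · simp [h1]
  · rw [ArithmeticFunction.one_apply_ne hn, mul_zero]

/-- the logarithm -/
noncomputable def lg (f : ArithmeticFunction ℂ) : ArithmeticFunction ℂ :=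
  ⟨fun n => f n * (Real.log n : ℂ), by simp⟩

lemma lg_apply (f : ArithmeticFunction ℂ) (n : ℕ) : lg f n = f n * (Real.log n : ℂ) := rfl

lemma lg_mul (f g : ArithmeticFunction ℂ) : lg (f * g) = lg f * g + f * lg g := by
  ext n
  rw [ArithmeticFunction.add_apply, lg_apply, ArithmeticFunction.mul_apply,
    ArithmeticFunction.mul_apply, ArithmeticFunction.mul_apply, Finset.sum_mul,
    ← Finset.sum_add_distrib]
  refine Finset.sum_congr rfl fun x hx => ?_
  obtain ⟨h1, h2⟩ := Nat.mem_divisorsAntidiagonal.1 hx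
  rw [lg_apply, lg_apply, ← h1]
  have h3 : x.1 ≠ 0 := fun h => h2 (by rw [← h1, h, zero_mul])
  have h4 : x.2 ≠ 0 := fun h => h2 (by rw [← h1, h, mul_zero])
  rw [Nat.cast_mul, Real.log_mul (by exact_mod_cast h3) (by exact_mod_cast h4)]
  push_cast
  ring

lemma AF_sum {ι : Type} (S : Finset ι) (f : ι → ArithmeticFunction ℂ) (n : ℕ) :
    (∑ j ∈ S, f j) n = ∑ j ∈ S, f j n := by
  classical
  induction S using Finset.induction_on with
  | empty => rfl
  | insert a S ha ih =>
    rw [Finset.sum_insert ha, Finset.sum_insert ha, ArithmeticFunction.add_apply, ih]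

lemma lg_one : lg 1 = 0 := by
  ext n
  rw [lg_apply]
  rcases eq_or_ne n 1 with rfl | hn
  · simp
  · rw [ArithmeticFunction.one_apply_ne hn, zero_mul]
    rfl

lemma L_one (s : ℂ) : LSeries (fun n => (1 : ArithmeticFunction ℂ) n) s = 1 := by
  have h1 : (fun n => (1 : ArithmeticFunction ℂ) n) = LSeries.delta :=
    ArithmeticFunction.one_eq_delta
  rw [h1, LSeries_delta]
  rfl

/-- the von Mangoldt function -/
noncomputable def vM : ArithmeticFunction ℂ :=
  ⟨fun n => (ArithmeticFunction.vonMangoldt n : ℂ), by simp⟩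

lemma vM_apply (n : ℕ) : vM n = (ArithmeticFunction.vonMangoldt n : ℂ) := rfl

/-- the constant function -/
noncomputable def zC : ArithmeticFunction ℂ := (ArithmeticFunction.zeta : ArithmeticFunction ℂ)

/-- the Moebius function -/
noncomputable def mC : ArithmeticFunction ℂ := (ArithmeticFunction.moebius : ArithmeticFunction ℂ)

lemma vM_mul : vM * zC = lg zC := by
  ext n
  unfold zC
  rw [ArithmeticFunction.coe_mul_zeta_apply, lg_apply]
  rcases eq_or_ne n 0 with rfl | hn
  · simp
  · rw [ArithmeticFunction.natCoe_apply, ArithmeticFunction.zeta_apply_ne hn, Nat.cast_one,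
      one_mul, ← ArithmeticFunction.vonMangoldt_sum]
    push_cast
    rfl

/-- the completely multiplicative functions bounded by `1` -/
structure CMu (h : ℕ → ℂ) : Prop where
  zero : h 0 = 0
  one : h 1 = 1
  mul : ∀ a b, h (a * b) = h a * h b
  le : ∀ a, ‖h a‖ ≤ 1

/-- as an arithmetic function -/
noncomputable def AH (h : ℕ → ℂ) : ArithmeticFunction ℂ := tw h zC

lemma AH_apply {h : ℕ → ℂ} (hh : CMu h) (n : ℕ) : AH h n = h n := by
  unfold AH zC
  rw [tw_apply]
  rcases eq_or_ne n 0 with rfl | hn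
  · rw [hh.zero, zero_mul]
  · rw [ArithmeticFunction.natCoe_apply, ArithmeticFunction.zeta_apply_ne hn, Nat.cast_one,
      mul_one]

lemma AH_lg {h : ℕ → ℂ} (hh : CMu h) : lg (AH h) = AH h * tw h vM := by
  have h1 : lg (AH h) = tw h (lg zC) := by
    ext n
    unfold AH
    rw [lg_apply, tw_apply, tw_apply, lg_apply]
    ring
  rw [h1, ← vM_mul, tw_mul h hh.mul, mul_comm]
  rfl

lemma AH_summ {h : ℕ → ℂ} (hh : CMu h) {s : ℂ} (hs : 1 < s.re) :
    LSeriesSummable (fun n => AH h n) s := by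
  refine LSeriesSummable_of_bounded_of_one_lt_re (m := 1) (fun n _ => ?_) hs
  rw [AH_apply hh]
  exact hh.le n

lemma vM_summ {h : ℕ → ℂ} (hh : CMu h) {s : ℂ} (hs : 1 < s.re) :
    LSeriesSummable (fun n => tw h vM n) s := by
  refine (ArithmeticFunction.LSeriesSummable_vonMangoldt hs).norm.of_norm_bounded fun n => ?_
  refine LSeries.norm_term_le s ?_
  rw [tw_apply, vM_apply, norm_mul]
  have := hh.le n
  have h2 := norm_nonneg ((ArithmeticFunction.vonMangoldt n : ℝ) : ℂ)
  nlinarith

lemma AH_ne {h : ℕ → ℂ} (hh : CMu h) {s : ℂ} (hs : 1 < s.re) :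
    LSeries (fun n => AH h n) s ≠ 0 := by
  have h1 : tw h mC * AH h = 1 := by
    unfold AH
    rw [← tw_mul h hh.mul]
    unfold mC zC
    rw [ArithmeticFunction.coe_moebius_mul_coe_zeta]
    exact tw_one h hh.one
  have h2 : LSeriesSummable (fun n => tw h mC n) s := by
    refine LSeriesSummable_of_bounded_of_one_lt_re (m := 1) (fun n _ => ?_) hs
    rw [tw_apply, norm_mul]
    have h3 := hh.le n
    have h4 : ‖mC n‖ ≤ 1 := by
      unfold mC
      rw [ArithmeticFunction.intCoe_apply, Complex.norm_intCast]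
      exact_mod_cast ArithmeticFunction.abs_moebius_le_one
    have h5 := norm_nonneg (mC n)
    have h6 := norm_nonneg (h n)
    nlinarith
  have h3 := ArithmeticFunction.LSeries_mul' h2 (AH_summ hh hs)
  rw [h1] at h3
  intro h4
  rw [h4, mul_zero] at h3
  rw [L_one s] at h3
  exact one_ne_zero h3

lemma prod_facts {ι : Type} (S : Finset ι) (h : ι → ℕ → ℂ) (hh : ∀ j, CMu (h j)) :
    (∀ s : ℂ, 1 < s.re → LSeriesSummable (fun n => (∏ j ∈ S, AH (h j)) n) s ∧
      LSeries (fun n => (∏ j ∈ S, AH (h j)) n) s ≠ 0) ∧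
    lg (∏ j ∈ S, AH (h j)) = (∏ j ∈ S, AH (h j)) * ∑ j ∈ S, tw (h j) vM := by
  classical
  induction S using Finset.induction_on with
  | empty =>
    simp only [Finset.prod_empty, Finset.sum_empty, mul_zero]
    refine ⟨fun s hs => ⟨?_, ?_⟩, lg_one⟩
    · exact LSeriesSummable_of_bounded_of_one_lt_re (m := 1) (fun n _ => by
        rw [ArithmeticFunction.one_apply]
        split_ifs <;> simp) hs
    · rw [L_one s]
      exact one_ne_zero
  | insert a S ha ih =>
    obtain ⟨ih1, ih2⟩ := ih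
    rw [Finset.prod_insert ha, Finset.sum_insert ha]
    refine ⟨fun s hs => ⟨?_, ?_⟩, ?_⟩
    · exact ArithmeticFunction.LSeriesSummable_mul (AH_summ (hh a) hs) (ih1 s hs).1
    · rw [ArithmeticFunction.LSeries_mul' (AH_summ (hh a) hs) (ih1 s hs).1]
      exact mul_ne_zero (AH_ne (hh a) hs) (ih1 s hs).2
    · rw [lg_mul, AH_lg (hh a), ih2]
      ring

lemma tw_prod {ι : Type} (S : Finset ι) (h : ι → ℕ → ℂ) (c : ℕ → ℂ) (c1 : c 1 = 1)
    (cm : ∀ a b, c (a * b) = c a * c b) :
    tw c (∏ j ∈ S, AH (h j)) = ∏ j ∈ S, AH (fun n => h j n * c n) := by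
  classical
  induction S using Finset.induction_on with
  | empty =>
    simp only [Finset.prod_empty]
    exact tw_one c c1
  | insert a S ha ih =>
    rw [Finset.prod_insert ha, Finset.prod_insert ha, tw_mul c cm, ih]
    congr 1
    ext n
    unfold AH
    rw [tw_apply, tw_apply, tw_apply]
    ring

/-! ### logarithms -/

lemma log_summ (f : ℕ → ℂ) (hf : ∀ s : ℂ, 1 < s.re → LSeriesSummable f s) (k : ℕ) :
    ∀ s : ℂ, 1 < s.re → LSeriesSummable (fun n => f n * ((Real.log n ^ k : ℝ) : ℂ)) s := by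
  induction k with
  | zero =>
    intro s hs
    refine (LSeriesSummable_congr s fun {n} _ => ?_).1 (hf s hs)
    rw [pow_zero, Complex.ofReal_one, mul_one]
  | succ k ih =>
    intro s hs
    have h1 : LSeries.abscissaOfAbsConv (fun n => f n * ((Real.log n ^ k : ℝ) : ℂ)) ≤ 1 := by
      refine LSeries.abscissaOfAbsConv_le_of_forall_lt_LSeriesSummable' fun y hy => ?_
      refine ih _ ?_
      exact_mod_cast hy
    have h2 := LSeriesSummable_logMul_of_lt_re
      (f := fun n => f n * ((Real.log n ^ k : ℝ) : ℂ)) (s := s)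
      (lt_of_le_of_lt h1 (by exact_mod_cast hs))
    refine (LSeriesSummable_congr s fun {n} _ => ?_).1 h2
    change Complex.log n * (f n * ((Real.log n ^ k : ℝ) : ℂ)) = _
    rw [← Complex.natCast_log, pow_succ, Complex.ofReal_mul]
    ring

/-! ### the main statement -/

lemma aF_summ (K : Type) [Field K] [NumberField K] {s : ℂ} (hs : 1 < s.re) :
    LSeriesSummable (fun n => (aF K n : ℂ)) s := by
  refine (LSeriesSummable_congr s fun {n} _ => ?_).1 (dz_summable K hs)
  rw [aF_cnt, Complex.ofReal_natCast]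

/-- row CFF -/
theorem pf_CFF : T_CFF := by
  classical
  intro K _ _
  obtain ⟨h, h0, h1, hm, hb, hz, hp⟩ := ep K
  have hh : ∀ j, CMu (h j) := fun j => ⟨h0 j, h1 j, hm j, hb j⟩
  refine ⟨gF_bd K, fun s hs => aF_summ K hs, ?_⟩
  -- uniqueness
  have key : ∀ n : ℕ, n ≠ 0 → (aF K n : ℂ) = (∏ j, AH (h j)) n := by
    intro n hn
    have e1 : LSeries.abscissaOfAbsConv (fun n => (aF K n : ℂ)) < ⊤ :=
      lt_of_le_of_lt (aF_summ K (s := 2) (by norm_num)).abscissaOfAbsConv_le (by simp)
    have e2 : LSeries.abscissaOfAbsConv (fun n => (∏ j, AH (h j)) n) < ⊤ :=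
      lt_of_le_of_lt ((prod_facts Finset.univ h hh).1 2 (by norm_num)).1.abscissaOfAbsConv_le
        (by simp)
    refine LSeries.eq_of_LSeries_eventually_eq e1 e2 ?_ hn
    filter_upwards [eventually_gt_atTop (1 : ℝ)] with x hx
    have hx' : 1 < ((x : ℝ) : ℂ).re := by simpa using hx
    have e3 : LSeries (fun n => (aF K n : ℂ)) x = dedekindZeta K x := by
      unfold dedekindZeta
      refine LSeries_congr (fun {n} _ => ?_) _
      rw [aF_cnt]
      push_cast
      rfl
    have e4 : ∀ S : Finset (Fin (Module.finrank ℚ K)), LSeries (fun n => (∏ j ∈ S, AH (h j)) n) x =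
        ∏ j ∈ S, ∑' m : ℕ, h j m * (m : ℂ) ^ (-(x : ℂ)) := by
      intro S
      induction S using Finset.induction_on with
      | empty =>
        simp only [Finset.prod_empty]
        exact L_one _
      | insert a S ha ih =>
        rw [Finset.prod_insert ha, Finset.prod_insert ha,
          ArithmeticFunction.LSeries_mul' (AH_summ (hh a) hx') ((prod_facts S h hh).1 _ hx').1,
          ih]
        congr 1
        unfold LSeries
        refine tsum_congr fun m => ?_
        rcases eq_or_ne m 0 with rfl | hm0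
        · rw [LSeries.term_zero, h0, zero_mul]
        · rw [LSeries.term_of_ne_zero hm0, AH_apply (hh a), Complex.cpow_neg, div_eq_mul_inv]
    rw [e3, hz _ hx', e4]
  intro r χ s hr hs
  have : NeZero r := ⟨by omega⟩
  set c : ℕ → ℂ := cv χ with hc
  have c1 : c 1 = 1 := by
    rw [hc]
    unfold Pool.Agent.H30.BV.cv
    simp
  have cm : ∀ a b, c (a * b) = c a * c b := by
    intro a b
    rw [hc]
    unfold Pool.Agent.H30.BV.cv
    push_cast
    exact map_mul χ _ _
  have cb : ∀ a, ‖c a‖ ≤ 1 := by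
    intro a
    rw [hc]
    unfold Pool.Agent.H30.BV.cv
    exact DirichletCharacter.norm_le_one χ _
  have hh' : ∀ j, CMu (fun n => h j n * c n) := fun j =>
    ⟨by simp only [h0, zero_mul], by simp only [h1, c1, mul_one], fun a b => by
      simp only [hm, cm]
      ring, fun a => by
      rw [norm_mul]
      have g1 := hb j a
      have g2 := cb a
      have g3 := norm_nonneg (h j a)
      nlinarith [norm_nonneg (c a)]⟩
  obtain ⟨pf1, pf2⟩ := prod_facts Finset.univ (fun j n => h j n * c n) hh'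
  have ka : ∀ n : ℕ, n ≠ 0 → ac K χ n = (∏ j, AH (fun n => h j n * c n)) n := by
    intro n hn
    rw [← tw_prod Finset.univ h c c1 cm, tw_apply, ← key n hn]
    unfold ac
    rw [mul_comm]
  have kg : ∀ n : ℕ, n ≠ 0 → (ArithmeticFunction.vonMangoldt n : ℂ) * gc K χ n =
      (∑ j, tw (fun n => h j n * c n) vM) n := by
    intro n hn
    have g0 : (∑ j, tw (fun n => h j n * c n) vM) n =
        ∑ j, h j n * c n * (ArithmeticFunction.vonMangoldt n : ℂ) := by
      rw [AF_sum]
      rfl
    rw [g0]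
    unfold gc
    by_cases hpp : IsPrimePow n
    · obtain ⟨p, k, hp1, hk, rfl⟩ := (isPrimePow_nat_iff n).1 hpp
      rw [gF_pow K p k hp1 hk]
      have g1 : ∀ j, h j (p ^ k) = h j p ^ k := by
        intro j
        clear hk hn hpp g0
        induction k with
        | zero => rw [pow_zero, pow_zero, h1]
        | succ k ih => rw [pow_succ, pow_succ, hm, ih]
      have g2 := hp p k hp1 hk
      simp_rw [g1]
      rw [← Finset.sum_mul, ← Finset.sum_mul, g2]
      push_cast
      ring
    · rw [ArithmeticFunction.vonMangoldt_eq_zero_iff.2 hpp]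
      simp
  have sa : ∀ s : ℂ, 1 < s.re → LSeriesSummable (ac K χ) s := fun s hs =>
    (LSeriesSummable_congr s fun {n} hn => ka n hn).2 (pf1 s hs).1
  have sg : ∀ s : ℂ, 1 < s.re →
      LSeriesSummable (fun n => (ArithmeticFunction.vonMangoldt n : ℂ) * gc K χ n) s := by
    intro s hs
    refine (LSeriesSummable_congr s fun {n} hn => kg n hn).2 ?_
    have g2 : LSeriesSummable (∑ j, fun n => tw (fun n => h j n * c n) vM n) s :=
      LSeriesSummable.sum fun j _ => vM_summ (hh' j) hs
    refine (LSeriesSummable_congr s fun {n} _ => ?_).1 g2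
    rw [AF_sum, Finset.sum_apply]
  refine ⟨fun k => ⟨log_summ _ sa k s hs, log_summ _ sg k s hs⟩, ?_, ?_⟩
  · unfold DS
    rw [LSeries_congr (g := fun n => (∏ j, AH (fun n => h j n * c n)) n) (fun {n} hn => by
      rw [ka n hn]
      simp) s]
    exact (pf1 s hs).2
  · have e1 : DS (ac K χ) 1 s = LSeries (fun n => lg (∏ j, AH (fun n => h j n * c n)) n) s := by
      unfold DS
      refine LSeries_congr (fun {n} hn => ?_) s
      rw [ka n hn, lg_apply, pow_one]
    have e2 : DS (ac K χ) 0 s = LSeries (fun n => (∏ j, AH (fun n => h j n * c n)) n) s := by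
      unfold DS
      refine LSeries_congr (fun {n} hn => ?_) s
      rw [ka n hn]
      simp
    have e3 : DS (fun n => (ArithmeticFunction.vonMangoldt n : ℂ) * gc K χ n) 0 s =
        LSeries (fun n => (∑ j, tw (fun n => h j n * c n) vM) n) s := by
      unfold DS
      refine LSeries_congr (fun {n} hn => ?_) s
      rw [pow_zero, Complex.ofReal_one, mul_one]
      exact kg n hn
    rw [e1, e2, e3, pf2]
    refine ArithmeticFunction.LSeries_mul' (pf1 s hs).1 ?_
    exact (LSeriesSummable_congr s fun {n} hn => kg n hn).1 (sg s hs)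

end Pool.Agent.H8.SM
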